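import Pool.Agent.H648.Q.Defs2
import Pool.Graph.R_seed8.Helper112.Arith

/-!
Project Q648, stage 2 (helper648), task CNT2 (helper225): from triples to positive integers.
-/

set_option autoImplicit false

namespace Pool.Agent.H225.Q648

open Finset
open Pool.Agent.W78.GS (Pm)
open Pool.Agent.W78.GT (Tr NT tri Qp mem_tri)
open Pool.Agent.H648.Q
open Pool.Agent.H648.Q2 (G1 sw S_CNT2)

section

variable (a b c κ : ℤ)

/-- the inverse map -/
noncomputable def ph (p : Bool × ℕ) (x : Σ _ : ℕ, ℕ) : Tr :=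
  match p with
  | (true, l) => (l * x.2, a * κ * x.1 + x.2,
      (Qp (b * κ) (a * c * κ ^ 2) (a * κ * x.1 + x.2) / ((l * x.2 : ℕ) : ℤ)).toNat)
  | (false, l) => ((Qp (b * κ) (a * c * κ ^ 2) (x.2 - b * κ - a * κ * x.1) /
      ((x.2 / l : ℕ) : ℤ)).toNat, x.2 - b * κ - a * κ * x.1, x.2 / l)

end

theorem Fp_ne {a b c : ℤ} (hns : ¬ IsSquare (b ^ 2 - 4 * (a * c))) (n : ℤ) : Fp a b c n ≠ 0 := by
  intro h0
  apply hns
  refine ⟨2 * a * n + b, ?_⟩
  have h1 : 4 * a * Fp a b c n = (2 * a * n + b) * (2 * a * n + b) - (b ^ 2 - 4 * (a * c)) := by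
    unfold Fp; ring
  rw [h0, mul_zero] at h1
  linarith

/-- the bound for `n` -/
def C1 (a b c κ : ℤ) : ℤ := 2 * |b| * κ + 4 * |a * c| * κ ^ 2 + b ^ 2 * κ ^ 2 + 1

theorem C1_pos {a b c κ : ℤ} (hκ : 0 < κ) : 1 ≤ C1 a b c κ := by
  unfold C1
  have h1 : 0 ≤ 2 * |b| * κ := by positivity
  have h2 : 0 ≤ 4 * |a * c| * κ ^ 2 := by positivity
  have h3 : 0 ≤ b ^ 2 * κ ^ 2 := by positivity
  linarith

/-- positivity of the two ends -/
theorem ends {a b c κ : ℤ} (hκ : 0 < κ) {l d₂ D₂ : ℕ} {n : ℤ} (hl : 2 ≤ l) (hd : 1 ≤ d₂)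
    (hle : l * d₂ ≤ D₂) (h5 : ((l * d₂ : ℕ) : ℤ) * D₂ = Qp (b * κ) (a * c * κ ^ 2) n)
    (hn : C1 a b c κ < n) : 0 < n - d₂ ∧ 0 < ((l * D₂ : ℕ) : ℤ) - n - b * κ := by
  have hC := C1_pos (a := a) (b := b) (c := c) hκ
  have hn1 : 1 ≤ n := by linarith
  unfold C1 at hn
  unfold Qp at h5
  have e1 : 0 ≤ 2 * |b| * κ := by positivity
  have e2 : 0 ≤ 4 * |a * c| * κ ^ 2 := by positivity
  have e3 : 0 ≤ b ^ 2 * κ ^ 2 := by positivity
  have f1 : |b| * κ * n ≤ n * n := by nlinarith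
  have f1' : 2 * |b| * κ * n ≤ n * n := by nlinarith
  have f2 : 4 * |a * c| * κ ^ 2 + b ^ 2 * κ ^ 2 + 1 ≤ n * n := by nlinarith
  have g1 : b * κ * n ≤ |b| * κ * n := by
    have : b ≤ |b| := le_abs_self b
    have h2 : 0 ≤ κ * n := by positivity
    nlinarith
  have g1' : -(|b| * κ * n) ≤ b * κ * n := by
    have : -|b| ≤ b := neg_abs_le b
    have h2 : 0 ≤ κ * n := by positivity
    nlinarith
  have g2 : a * c * κ ^ 2 ≤ |a * c| * κ ^ 2 := by
    have := le_abs_self (a * c)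
    nlinarith [sq_nonneg κ]
  have g2' : -(|a * c| * κ ^ 2) ≤ a * c * κ ^ 2 := by
    have := neg_abs_le (a * c)
    nlinarith [sq_nonneg κ]
  have e2' : 0 ≤ |a * c| * κ ^ 2 := by positivity
  obtain ⟨P, hP⟩ : ∃ P : ℤ, P = n ^ 2 + b * κ * n + a * c * κ ^ 2 := ⟨_, rfl⟩
  rw [← hP] at h5
  have hlz : (2 : ℤ) ≤ l := by exact_mod_cast hl
  have hdz : (1 : ℤ) ≤ d₂ := by exact_mod_cast hd
  have hlez : (l : ℤ) * d₂ ≤ D₂ := by exact_mod_cast hle
  push_cast at h5 ⊢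
  -- `4 d₂² ≤ P`
  have k1 : 4 * ((d₂ : ℤ) * d₂) ≤ P := by
    have m1 : 2 * (d₂ : ℤ) ≤ l * d₂ := by nlinarith
    have m2 : (2 * (d₂ : ℤ)) * (2 * d₂) ≤ (l * d₂) * D₂ :=
      mul_le_mul m1 (m1.trans hlez) (by positivity) (by positivity)
    nlinarith
  -- `4 P ≤ (l D₂)²`
  have k2 : 4 * P ≤ ((l : ℤ) * D₂) * (l * D₂) := by
    have hD0 : (0 : ℤ) ≤ D₂ := Nat.cast_nonneg _
    have m1 : (l * d₂ : ℤ) * D₂ ≤ D₂ * D₂ := mul_le_mul_of_nonneg_right hlez hD0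
    have m2 : 2 * (D₂ : ℤ) ≤ l * D₂ := by nlinarith
    have m3 : (2 * (D₂ : ℤ)) * (2 * D₂) ≤ (l * D₂) * (l * D₂) :=
      mul_le_mul m2 m2 (by positivity) (by positivity)
    nlinarith
  constructor
  · by_contra hcon
    push Not at hcon
    have h1 : n ≤ d₂ := by linarith
    have h2 : n * n ≤ (d₂ : ℤ) * d₂ := mul_le_mul h1 h1 (by linarith) (by linarith)
    nlinarith
  · by_contra hcon
    push Not at hcon
    have h1 : (l : ℤ) * D₂ ≤ n + b * κ := by linarith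
    have h0 : (0 : ℤ) ≤ (l : ℤ) * D₂ := by positivity
    have h2 : ((l : ℤ) * D₂) * (l * D₂) ≤ (n + b * κ) * (n + b * κ) :=
      mul_le_mul h1 h1 h0 (h0.trans h1)
    have h3 : (n + b * κ) * (n + b * κ) = n * n + 2 * (b * κ * n) + b ^ 2 * κ ^ 2 := by ring
    nlinarith

/-- the size of `n` -/
theorem n_le {a b c κ : ℤ} {X : ℝ} {D d' : ℕ} {n : ℤ} (hX : 1 ≤ X)
    (h1 : (D : ℝ) ≤ X) (h2 : (d' : ℝ) ≤ X)
    (h3 : (D : ℤ) * d' = Qp (b * κ) (a * c * κ ^ 2) n) :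
    |(n : ℝ)| ≤ (1 + |((b * κ : ℤ) : ℝ)| + |(((b ^ 2 - 4 * (a * c)) * κ ^ 2 : ℤ) : ℝ)|) * X := by
  obtain ⟨u, hu⟩ : ∃ u : ℝ, u = |(((b ^ 2 - 4 * (a * c)) * κ ^ 2 : ℤ) : ℝ)| := ⟨_, rfl⟩
  have hu0 : 0 ≤ u := by rw [hu]; exact abs_nonneg _
  have hu1 : (((b ^ 2 - 4 * (a * c)) * κ ^ 2 : ℤ) : ℝ) ≤ u ^ 2 := by
    have h4 : (((b ^ 2 - 4 * (a * c)) * κ ^ 2 : ℤ)) ≤ ((b ^ 2 - 4 * (a * c)) * κ ^ 2) ^ 2 :=
      Int.le_self_sq _
    have h5 : ((((b ^ 2 - 4 * (a * c)) * κ ^ 2 : ℤ)) : ℝ) ≤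
        ((((b ^ 2 - 4 * (a * c)) * κ ^ 2) ^ 2 : ℤ) : ℝ) := Int.cast_le.mpr h4
    rw [hu, sq_abs]
    rw [Int.cast_pow] at h5
    exact h5
  have h4 : (2 * n + b * κ) ^ 2 = 4 * ((D : ℤ) * d') + (b ^ 2 - 4 * (a * c)) * κ ^ 2 := by
    rw [h3]
    unfold Qp
    ring
  have h5 : (2 * (n : ℝ) + ((b * κ : ℤ) : ℝ)) ^ 2 =
      4 * ((D : ℝ) * d') + (((b ^ 2 - 4 * (a * c)) * κ ^ 2 : ℤ) : ℝ) := by
    exact_mod_cast h4
  have hD0 : (0 : ℝ) ≤ D := Nat.cast_nonneg _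
  have hd0 : (0 : ℝ) ≤ d' := Nat.cast_nonneg _
  have h6 : (2 * (n : ℝ) + ((b * κ : ℤ) : ℝ)) ^ 2 ≤ (2 * X + u) ^ 2 := by
    rw [h5]
    have : (D : ℝ) * d' ≤ X * X := mul_le_mul h1 h2 hd0 (by linarith)
    nlinarith
  have h7 : |2 * (n : ℝ) + ((b * κ : ℤ) : ℝ)| ≤ 2 * X + u :=
    abs_le_of_sq_le_sq h6 (by linarith)
  have h8 := abs_sub_abs_le_abs_sub (2 * (n : ℝ)) (-((b * κ : ℤ) : ℝ))
  rw [sub_neg_eq_add, abs_neg, abs_mul, abs_of_pos (two_pos : (0 : ℝ) < 2)] at h8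
  have h9 := abs_nonneg ((b * κ : ℤ) : ℝ)
  rw [← hu]
  nlinarith

theorem cnt2_of {g : ℕ → ℤ} {a b c : ℤ} (hg : Pm g) (ha : 0 < a)
    (hns : ¬ IsSquare (b ^ 2 - 4 * (a * c))) (h : S_STR g a b c) : S_CNT2 g a b c := by
  classical
  intro κ Q hκ haκ hQ ε hε
  have ha0 : a ≠ 0 := ha.ne'
  have hκ0 : κ ≠ 0 := hκ.ne'
  have haκ1 : 0 < a * κ := mul_pos ha hκ
  have haκ0 : a * κ ≠ 0 := haκ1.ne'
  obtain ⟨C0, hC0, hdiv⟩ := Pool.Agent.Helper112.divisor_bound (ε / 2) (by positivity)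
  obtain ⟨q1, hq1⟩ : ∃ q1 : ℕ, ∀ l ∈ Q, l ≤ q1 := ⟨Q.sup id, fun l hl => Finset.le_sup (f := id) hl⟩
  set C3 : ℝ := ((|a| * κ ^ 2 * (|a| + |b| + |c|) : ℤ) : ℝ) with hC3
  have hC3z : 0 ≤ |a| * κ ^ 2 * (|a| + |b| + |c|) := by positivity
  have hC30 : 0 ≤ C3 := by
    rw [hC3]
    exact_mod_cast hC3z
  set C2 : ℝ := q1 + 2 + 2 * |((b * κ : ℤ) : ℝ)| +
    |(((b ^ 2 - 4 * (a * c)) * κ ^ 2 : ℤ) : ℝ)| with hC2
  have hbk := abs_nonneg ((b * κ : ℤ) : ℝ)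
  have hDk := abs_nonneg (((b ^ 2 - 4 * (a * c)) * κ ^ 2 : ℤ) : ℝ)
  have hC21 : 1 ≤ C2 := by
    have : (0 : ℝ) ≤ q1 := Nat.cast_nonneg _
    rw [hC2]
    linarith
  set C4 : ℝ := 4 * Q.card * (C0 * C3 ^ (ε / 2)) with hC4
  have hC40 : 0 ≤ C4 := by positivity
  -- the exceptional triples
  obtain ⟨K, hK⟩ : ∃ K : ℤ, K = C1 a b c κ := ⟨_, rfl⟩
  have hK1 : 1 ≤ K := by rw [hK]; exact C1_pos hκ
  have hKb : |b * κ| ≤ K := by
    rw [hK, abs_mul, abs_of_pos hκ]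
    unfold C1
    have h1 : 0 ≤ |b| * κ := by positivity
    have h2 : 0 ≤ 4 * |a * c| * κ ^ 2 := by positivity
    have h3 : 0 ≤ b ^ 2 * κ ^ 2 := by positivity
    linarith
  set M : ℝ := ((K ^ 2 + |b * κ| * K + |a * c * κ ^ 2| : ℤ) : ℝ) with hM
  set T₀ := tri (b * κ) (a * c * κ ^ 2) M M with hT₀
  set C5 : ℝ := (T₀.card : ℝ) with hC5
  have hC50 : 0 ≤ C5 := Nat.cast_nonneg _
  refine ⟨C2 + C4 + C5, by linarith, fun N hN s hs => ?_⟩
  have hN0 : (1 : ℝ) ≤ N := by exact_mod_cast hN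
  set X : ℝ := N / (C2 + C4 + C5) with hX
  have hXN : C2 * X ≤ N := by
    rw [hX, mul_div_assoc', div_le_iff₀ (by linarith)]
    nlinarith
  set G := (Icc 1 N).filter (fun n : ℕ => g (Fp a b c n).natAbs = s) with hG
  let V : ℕ → Finset ℕ := fun n => (a * κ ^ 2 * Fp a b c n).natAbs.divisors
  let S0 : Finset (Bool × ℕ) := Finset.univ ×ˢ Q
  obtain ⟨S1, hS1⟩ : ∃ S1 : Finset Tr, S1 = S0.biUnion (fun p => (G.sigma V).image (ph a b c κ p)) :=
    ⟨_, rfl⟩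
  have core : ∀ (D : ℕ) (n : ℤ) (d' : ℕ), 1 ≤ D → (D : ℝ) ≤ X → 1 ≤ d' → (d' : ℝ) ≤ X →
      (D : ℤ) * d' = Qp (b * κ) (a * c * κ ^ 2) n → Int.gcd n κ = 1 → g (D * d') = -1 →
      G1 (a * κ) Q (D, n, d') → D ≤ d' → K < n → ((D, n, d') : Tr) ∈ S1 := by
    intro D n d' t1 t2 t3 t4 t5 hgcd hsgn hG1 hDd' hnK
    obtain ⟨l, hl, d, hDd, hmod⟩ := hG1
    simp only at hDd hmod
    have hX1 : 1 ≤ X := by
      have : (1 : ℝ) ≤ D := by exact_mod_cast t1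
      linarith
    have hl2 : 2 ≤ l := (hQ l hl).two_le
    have hl1 : 1 ≤ l := by omega
    have hd1 : 1 ≤ d := by
      rcases Nat.eq_zero_or_pos d with hd | hd
      · rw [hd, mul_zero] at hDd
        omega
      · exact hd
    have hld' : 1 ≤ l * d' := Nat.mul_pos hl1 t3
    have heq : (d : ℤ) * ((l * d' : ℕ) : ℤ) = n ^ 2 + b * κ * n + a * c * κ ^ 2 := by
      have : (d : ℤ) * ((l * d' : ℕ) : ℤ) = (D : ℤ) * d' := by
        rw [hDd]
        push_cast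
        ring
      rw [this, t5]
      rfl
    have hdvd : a * κ ∣ n - 1 * d := by rw [one_mul]; exact hmod
    obtain ⟨n₁, n₂, e1, e2, e3, e4, e5⟩ := h κ 1 n d (l * d') hκ0 haκ (Or.inl rfl) hd1 hld' heq hgcd
      hdvd
    rw [one_mul] at e1 e2
    have hNT : g (d * (l * d')) = -1 := by
      rw [← hsgn]
      congr 1
      rw [hDd]
      ring
    rw [hNT] at e3
    have hle' : l * d ≤ d' := by rw [← hDd]; exact hDd'
    have h5' : ((l * d : ℕ) : ℤ) * (d' : ℤ) = Qp (b * κ) (a * c * κ ^ 2) n := by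
      rw [← hDd]; exact t5
    have hnK' : C1 a b c κ < n := by rw [← hK]; exact hnK
    obtain ⟨p1, p2⟩ := ends (a := a) (b := b) (c := c) hκ hl2 hd1 hle' h5' hnK'
    -- sizes
    have hn := n_le (κ := κ) hX1 t2 t4 t5
    have hn0 : (0 : ℝ) < n := by
      have : 0 < n := by linarith
      exact_mod_cast this
    rw [abs_of_pos hn0] at hn
    have hpos1 : 1 ≤ n₁ := by
      by_contra hcon
      have h1 : n₁ ≤ 0 := by omega
      nlinarith
    have hpos2 : 1 ≤ n₂ := by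
      by_contra hcon
      have h1 : n₂ ≤ 0 := by omega
      nlinarith
    have hn1 : (n₁ : ℝ) ≤ N := by
      have h1 : n₁ ≤ n := by nlinarith
      have h2 : (n₁ : ℝ) ≤ n := by exact_mod_cast h1
      have hq0 : (0 : ℝ) ≤ q1 := Nat.cast_nonneg _
      rw [hC2] at hXN
      nlinarith
    have hn2 : (n₂ : ℝ) ≤ N := by
      have h1 : n₂ ≤ ((l * d' : ℕ) : ℤ) - b * κ := by nlinarith
      have h2 : (n₂ : ℝ) ≤ (l : ℝ) * d' - ((b * κ : ℤ) : ℝ) := by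
        have h3 : ((n₂ : ℤ) : ℝ) ≤ ((((l * d' : ℕ) : ℤ) - b * κ : ℤ) : ℝ) := Int.cast_le.mpr h1
        rw [Int.cast_sub, Int.cast_natCast, Nat.cast_mul] at h3
        exact h3
      have hlq : (l : ℝ) ≤ q1 := by exact_mod_cast hq1 l hl
      have hl0 : (0 : ℝ) ≤ l := Nat.cast_nonneg _
      have hd0 : (0 : ℝ) ≤ d' := Nat.cast_nonneg _
      have h3 : (l : ℝ) * d' ≤ q1 * X := mul_le_mul hlq t4 hd0 (by linarith)
      have h4 := neg_abs_le ((b * κ : ℤ) : ℝ)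
      rw [hC2] at hXN
      nlinarith
    obtain ⟨m₁, rfl⟩ := Int.eq_ofNat_of_zero_le (show 0 ≤ n₁ by omega)
    obtain ⟨m₂, rfl⟩ := Int.eq_ofNat_of_zero_le (show 0 ≤ n₂ by omega)
    have hmemG : ∀ z : ℕ, 1 ≤ (z : ℤ) → (((z : ℕ) : ℤ) : ℝ) ≤ N → g (Fp a b c z).natAbs = s →
        z ∈ G := by
      intro z hz1 hz hgz
      rw [hG, mem_filter, Finset.mem_Icc]
      refine ⟨⟨by exact_mod_cast hz1, ?_⟩, hgz⟩
      rw [Int.cast_natCast] at hz
      exact_mod_cast hz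
    have hmemV : ∀ (z : ℕ) (v : ℕ), (v : ℤ) ∣ a * κ ^ 2 * Fp a b c z → v ∈ V z := by
      intro z v hv
      show v ∈ (a * κ ^ 2 * Fp a b c z).natAbs.divisors
      rw [Nat.mem_divisors]
      refine ⟨Int.natCast_dvd.mp hv, ?_⟩
      rw [Int.natAbs_ne_zero]
      exact mul_ne_zero (mul_ne_zero ha0 (pow_ne_zero 2 hκ0)) (Fp_ne hns z)
    have hD0 : (D : ℤ) ≠ 0 := by exact_mod_cast (by omega : D ≠ 0)
    have hd0 : (d' : ℤ) ≠ 0 := by exact_mod_cast (by omega : d' ≠ 0)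
    rw [hS1, mem_biUnion]
    have hcase : g (Fp a b c m₁).natAbs = s ∨ g (Fp a b c m₂).natAbs = s := by
      rcases hg.val (Fp a b c m₁).natAbs with h1 | h1 <;>
        rcases hg.val (Fp a b c m₂).natAbs with h2 | h2 <;> rcases hs with rfl | rfl <;>
        rw [h1, h2] at e3 ⊢ <;> simp at e3 ⊢
    rcases hcase with hc | hc
    · refine ⟨(true, l), ?_, ?_⟩
      · simp only [S0, mem_product, mem_univ, true_and]
        exact hl
      · rw [mem_image]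
        refine ⟨⟨m₁, d⟩, mem_sigma.mpr ⟨hmemG m₁ hpos1 hn1 hc, hmemV m₁ d e4⟩, ?_⟩
        have h1 : a * κ * m₁ + d = n := by rw [e1]; ring
        show ((l * d, a * κ * m₁ + d,
          (Qp (b * κ) (a * c * κ ^ 2) (a * κ * m₁ + d) / ((l * d : ℕ) : ℤ)).toNat) : Tr) = _
        rw [h1, ← hDd, ← t5, Int.mul_ediv_cancel_left _ hD0, Int.toNat_natCast]
    · refine ⟨(false, l), ?_, ?_⟩
      · simp only [S0, mem_product, mem_univ, true_and]
        exact hl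
      · rw [mem_image]
        refine ⟨⟨m₂, l * d'⟩, mem_sigma.mpr ⟨hmemG m₂ hpos2 hn2 hc, hmemV m₂ _ e5⟩, ?_⟩
        have h1 : ((l * d' : ℕ) : ℤ) - b * κ - a * κ * m₂ = n := by rw [e2]; ring
        show (((Qp (b * κ) (a * c * κ ^ 2) (((l * d' : ℕ) : ℤ) - b * κ - a * κ * m₂) /
          ((l * d' / l : ℕ) : ℤ)).toNat, ((l * d' : ℕ) : ℤ) - b * κ - a * κ * m₂,
          l * d' / l) : Tr) = _
        rw [h1, Nat.mul_div_cancel_left _ (by omega : 0 < l), ← t5, Int.mul_ediv_cancel _ hd0,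
          Int.toNat_natCast]
  have hsub : (tri (b * κ) (a * c * κ ^ 2) X X).filter (fun e => Int.gcd e.2.1 κ = 1 ∧
      g (NT e) = -1 ∧ G1 (a * κ) Q e ∧ G1 (a * κ) Q (sw e)) ⊆ T₀ ∪ (S1 ∪ S1.image sw) := by
    rintro ⟨D, n, d'⟩ he
    rw [mem_filter] at he
    obtain ⟨he, hgcd, hsgn, hg1, hg2⟩ := he
    obtain ⟨t1, t2, t3, t4, t5, t6⟩ := mem_tri.mp he
    simp only at t1 t2 t3 t4 t5 t6 hgcd
    rw [mem_union, mem_union]
    rcases le_or_gt n K with hnK | hnK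
    · left
      rw [hT₀, mem_tri]
      have hb1 := neg_abs_le (b * κ)
      have hb2 := le_abs_self (b * κ)
      have hnabs : |n| ≤ K := by
        rw [abs_le]
        constructor
        · linarith
        · exact hnK
      have hQ1 : Qp (b * κ) (a * c * κ ^ 2) n ≤ K ^ 2 + |b * κ| * K + |a * c * κ ^ 2| := by
        unfold Qp
        have h1 : n ^ 2 ≤ K ^ 2 := by
          rw [← sq_abs n]
          have := abs_nonneg n
          nlinarith
        have h2 : b * κ * n ≤ |b * κ| * K := by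
          refine (le_abs_self _).trans ?_
          rw [abs_mul (b * κ) n]
          exact mul_le_mul_of_nonneg_left hnabs (abs_nonneg _)
        have h3 := le_abs_self (a * c * κ ^ 2)
        linarith
      have hDz : (D : ℤ) ≤ K ^ 2 + |b * κ| * K + |a * c * κ ^ 2| := by
        refine le_trans ?_ hQ1
        rw [← t5]
        exact_mod_cast Nat.le_mul_of_pos_right D t3
      have hdz : (d' : ℤ) ≤ K ^ 2 + |b * κ| * K + |a * c * κ ^ 2| := by
        refine le_trans ?_ hQ1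
        rw [← t5]
        exact_mod_cast Nat.le_mul_of_pos_left d' t1
      refine ⟨t1, ?_, t3, ?_, t5, t6⟩
      · rw [hM]
        have : (((D : ℕ) : ℤ) : ℝ) ≤ ((K ^ 2 + |b * κ| * K + |a * c * κ ^ 2| : ℤ) : ℝ) :=
          Int.cast_le.mpr hDz
        rw [Int.cast_natCast] at this
        exact this
      · rw [hM]
        have : (((d' : ℕ) : ℤ) : ℝ) ≤ ((K ^ 2 + |b * κ| * K + |a * c * κ ^ 2| : ℤ) : ℝ) :=
          Int.cast_le.mpr hdz
        rw [Int.cast_natCast] at this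
        exact this
    · right
      rcases le_total D d' with hle | hle
      · left
        exact core D n d' t1 t2 t3 t4 t5 hgcd hsgn hg1 hle hnK
      · right
        rw [mem_image]
        refine ⟨(d', n, D), core d' n D t3 t4 t1 t2 ?_ hgcd ?_ hg2 hle hnK, rfl⟩
        · rw [← t5]; ring
        · rw [← hsgn]
          congr 1
          show d' * D = D * d'
          ring
  -- the count
  have hcard1 : (((tri (b * κ) (a * c * κ ^ 2) X X).filter (fun e => Int.gcd e.2.1 κ = 1 ∧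
      g (NT e) = -1 ∧ G1 (a * κ) Q e ∧ G1 (a * κ) Q (sw e))).card : ℝ) ≤
      C5 + 4 * Q.card * ((G.sigma V).card : ℝ) := by
    have h0 : S1.card ≤ S0.card * (G.sigma V).card := by
      rw [hS1]
      exact card_biUnion_le_card_mul _ _ _ fun p _ => card_image_le
    have h1 : ((tri (b * κ) (a * c * κ ^ 2) X X).filter (fun e => Int.gcd e.2.1 κ = 1 ∧
      g (NT e) = -1 ∧ G1 (a * κ) Q e ∧ G1 (a * κ) Q (sw e))).card ≤
        T₀.card + 2 * (S0.card * (G.sigma V).card) := by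
      refine (card_le_card hsub).trans ((card_union_le _ _).trans ?_)
      refine Nat.add_le_add_left ((card_union_le _ _).trans ?_) _
      have h2 : (S1.image sw).card ≤ S1.card := card_image_le
      omega
    have h3 : S0.card = 2 * Q.card := by
      simp only [S0, card_product, card_univ, Fintype.card_bool]
    have h5 : ((tri (b * κ) (a * c * κ ^ 2) X X).filter (fun e => Int.gcd e.2.1 κ = 1 ∧
      g (NT e) = -1 ∧ G1 (a * κ) Q e ∧ G1 (a * κ) Q (sw e))).card ≤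
        T₀.card + 4 * Q.card * (G.sigma V).card := by
      rw [h3] at h1
      have : 2 * (2 * Q.card * (G.sigma V).card) = 4 * Q.card * (G.sigma V).card := by ring
      omega
    rw [hC5]
    exact_mod_cast h5
  have hcard2 : ((G.sigma V).card : ℝ) ≤ G.card * (C0 * (C3 ^ (ε / 2) * (N : ℝ) ^ ε)) := by
    rw [card_sigma]
    push_cast
    have h1 : ∀ n ∈ G, ((V n).card : ℝ) ≤ C0 * (C3 ^ (ε / 2) * (N : ℝ) ^ ε) := by
      intro n hn
      rw [hG, mem_filter, Finset.mem_Icc] at hn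
      have hnz : |(n : ℤ)| ≤ N := by
        rw [abs_of_nonneg (Int.natCast_nonneg n)]
        exact_mod_cast hn.1.2
      have hne : a * κ ^ 2 * Fp a b c n ≠ 0 :=
        mul_ne_zero (mul_ne_zero ha0 (pow_ne_zero 2 hκ0)) (Fp_ne hns n)
      have h2 : 1 ≤ (a * κ ^ 2 * Fp a b c n).natAbs := Nat.one_le_iff_ne_zero.mpr
        (Int.natAbs_ne_zero.mpr hne)
      have h3 := hdiv _ h2
      have hNz : (1 : ℤ) ≤ N := by exact_mod_cast hN
      have h4 : |a * κ ^ 2 * Fp a b c n| ≤ |a| * κ ^ 2 * (|a| + |b| + |c|) * N ^ 2 := by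
        have h5 : |Fp a b c n| ≤ (|a| + |b| + |c|) * N ^ 2 := by
          unfold Fp
          have h6 : |a * (n : ℤ) ^ 2 + b * n + c| ≤ |a| * |(n : ℤ)| ^ 2 + |b| * |(n : ℤ)| + |c| := by
            refine (abs_add_le _ _).trans ?_
            gcongr
            refine (abs_add_le _ _).trans ?_
            rw [abs_mul, abs_mul, abs_pow]
          have h7 : |(n : ℤ)| ^ 2 ≤ (N : ℤ) ^ 2 := by
            have := abs_nonneg (n : ℤ)
            nlinarith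
          have h8 : |(n : ℤ)| ≤ (N : ℤ) ^ 2 := by nlinarith
          have h9 : (1 : ℤ) ≤ (N : ℤ) ^ 2 := by nlinarith
          nlinarith [mul_le_mul_of_nonneg_left h7 (abs_nonneg a),
            mul_le_mul_of_nonneg_left h8 (abs_nonneg b),
            mul_le_mul_of_nonneg_left h9 (abs_nonneg c)]
        rw [abs_mul, abs_mul, abs_of_nonneg (sq_nonneg κ), mul_assoc (|a| * κ ^ 2)]
        exact mul_le_mul_of_nonneg_left h5 (by positivity)
      have h5 : ((a * κ ^ 2 * Fp a b c n).natAbs : ℝ) ≤ C3 * (N : ℝ) ^ 2 := by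
        rw [hC3]
        have h6 : (((a * κ ^ 2 * Fp a b c n).natAbs : ℕ) : ℤ) ≤
            |a| * κ ^ 2 * (|a| + |b| + |c|) * N ^ 2 := by
          rw [Int.natCast_natAbs]
          exact h4
        have h7 : ((((a * κ ^ 2 * Fp a b c n).natAbs : ℕ) : ℤ) : ℝ) ≤
            ((|a| * κ ^ 2 * (|a| + |b| + |c|) * N ^ 2 : ℤ) : ℝ) := Int.cast_le.mpr h6
        rw [Int.cast_natCast, Int.cast_mul, Int.cast_pow, Int.cast_natCast] at h7
        exact h7
      refine h3.trans (mul_le_mul_of_nonneg_left ?_ hC0.le)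
      refine (Real.rpow_le_rpow (Nat.cast_nonneg _) h5 (by positivity)).trans (le_of_eq ?_)
      rw [Real.mul_rpow hC30 (by positivity), ← Real.rpow_natCast, ← Real.rpow_mul (by positivity)]
      congr 2
      push_cast
      ring
    refine (sum_le_sum h1).trans (le_of_eq ?_)
    rw [sum_const, nsmul_eq_mul]
  have hNe : 0 ≤ (N : ℝ) ^ ε := by positivity
  have hG0 : (0 : ℝ) ≤ G.card := Nat.cast_nonneg _
  calc (((tri (b * κ) (a * c * κ ^ 2) X X).filter (fun e => Int.gcd e.2.1 κ = 1 ∧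
      g (NT e) = -1 ∧ G1 (a * κ) Q e ∧ G1 (a * κ) Q (sw e))).card : ℝ)
      ≤ C5 + 4 * Q.card * (G.card * (C0 * (C3 ^ (ε / 2) * (N : ℝ) ^ ε))) :=
        hcard1.trans (add_le_add_right (mul_le_mul_of_nonneg_left hcard2 (by positivity)) _)
    _ = C4 * (N : ℝ) ^ ε * G.card + C5 := by rw [hC4]; ring
    _ ≤ (C2 + C4 + C5) * (N : ℝ) ^ ε * G.card + (C2 + C4 + C5) := by
        have h1 : C4 * (N : ℝ) ^ ε * G.card ≤ (C2 + C4 + C5) * (N : ℝ) ^ ε * G.card := by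
          gcongr
          linarith
        linarith

end Pool.Agent.H225.Q648
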